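import Pool.Agent.R307.Tto7

/-!
# Direct sums with zero and truncated Toeplitz operators

No hypothesis is assumed.  The answer to the question is negative, already on `ℂ³`.

For `n = m + 3 ≥ 3` let `T` be the operator `corner m` on `ℂⁿ` which subtracts the first coordinate
from the last one: the identity minus a nilpotent operator of rank one.  Then `T` is unitarily
equivalent to a truncated Toeplitz operator, but `T ⊕ 0` on `ℂⁿ ⊕ ℂ` is not unitarily
equivalent to any truncated Toeplitz operator, on the model space `K_Θ` of any nonconstant inner
function `Θ` and with any symbol `φ ∈ L²`.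

The definitions (`L2`, `InH2`, `IsInner`, `InModel`, `IsTTO`, `UnitaryOnto`, `UETTO`, `addZero`,
`corner`) are in `Pool.Agent.R307.TtoDef3`.
-/

set_option autoImplicit false

namespace Pool.Agent.Results.MP_3d2409_an.NilpotentCorner

open Pool.Agent.R307.Ttz

/-- For every `n = m + 3 ≥ 3` the operator `T` on `ℂⁿ` which subtracts the first coordinate from
the last one is unitarily equivalent to a truncated Toeplitz operator and `T ⊕ 0` is not. -/
theorem result (m : ℕ) : UETTO (corner m) ∧ ¬ UETTO (addZero (corner m)) :=
  ⟨pos m, neg m⟩

end Pool.Agent.Results.MP_3d2409_an.NilpotentCorner
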